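import Pool.Agent.Lib.MP_cf6741_gt.Defs

namespace Pool.Agent.Lib.MP_cf6741_gt

open Finset Finsupp

variable {V : Type} [LinearOrder V]

/-- sign -/
def sgn (σ : Finset V) (x : V) : ℤ := (-1) ^ (σ.filter (· < x)).card

theorem sgn_sq (σ : Finset V) (x : V) : sgn σ x * sgn σ x = 1 := by
  rw [sgn, ← mul_pow]; simp

theorem sgn_ne_zero (σ : Finset V) (x : V) : sgn σ x ≠ 0 := by
  simp [sgn]

theorem sgn_insert {σ : Finset V} {u : V} (hu : u ∉ σ) (x : V) :
    sgn (insert u σ) x = (if u < x then -1 else 1) * sgn σ x := by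
  unfold sgn
  rw [filter_insert]
  split_ifs
  · rw [card_insert_of_notMem (by simp [hu]), pow_succ]; ring
  · simp

/-- join with a vertex -/
noncomputable def eps (x : V) : (Finset V →₀ ℤ) →ₗ[ℤ] (Finset V →₀ ℤ) :=
  Finsupp.linearCombination ℤ fun σ => if x ∈ σ then 0 else single (insert x σ) (sgn σ x)

theorem bd_single (σ : Finset V) :
    bd (single σ (1 : ℤ)) = ∑ v ∈ σ, single (σ.erase v) (sgn σ v) := by
  simp [bd, sgn]

theorem eps_single (x : V) (σ : Finset V) (c : ℤ) :
    eps x (single σ c) = if x ∈ σ then 0 else single (insert x σ) (c * sgn σ x) := by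
  simp only [eps, linearCombination_single]
  split_ifs <;> simp

theorem bd_single' (σ : Finset V) (c : ℤ) :
    bd (single σ c) = ∑ v ∈ σ, single (σ.erase v) (c * sgn σ v) := by
  rw [show single σ c = c • single σ (1 : ℤ) by simp, map_smul, bd_single, Finset.smul_sum]
  simp

theorem bd_eps_single (x : V) (σ : Finset V) :
    bd (eps x (single σ 1)) + eps x (bd (single σ 1)) = single σ 1 := by
  rw [eps_single, bd_single, map_sum]
  by_cases hx : x ∈ σ
  · rw [if_pos hx, map_zero, zero_add, Finset.sum_eq_single x]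
    · rw [eps_single, if_neg (by simp), insert_erase hx]
      have : sgn σ x = sgn (σ.erase x) x := by
        conv_lhs => rw [← insert_erase hx]
        rw [sgn_insert (by simp)]; simp
      rw [this, sgn_sq]
    · intro v hv hvx
      rw [eps_single, if_pos (by simp [hx, hvx.symm])]
    · intro h; exact absurd hx h
  · rw [if_neg hx, bd_single', sum_insert hx, erase_insert hx, sgn_insert hx, add_assoc,
      ← sum_add_distrib]
    simp only [lt_self_iff_false, if_false, one_mul, sgn_sq]
    rw [Finset.sum_eq_zero, add_zero]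
    intro v hv
    have hvx : v ≠ x := fun h => hx (h ▸ hv)
    rw [eps_single, if_neg (by simp [hx]), erase_insert_of_ne hvx.symm, ← single_add,
      sgn_insert hx]
    have : sgn σ x = (if v < x then -1 else 1) * sgn (σ.erase v) x := by
      conv_lhs => rw [← insert_erase hv]
      rw [sgn_insert (by simp)]
    rw [this]
    rcases lt_or_gt_of_ne hvx with h | h
    · simp [h, h.not_gt, mul_comm]
    · simp [h, h.not_gt, mul_comm]

theorem bd_eps (x : V) (z : Finset V →₀ ℤ) : bd (eps x z) + eps x (bd z) = z := by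
  have : bd ∘ₗ eps x + eps x ∘ₗ bd = (LinearMap.id : (Finset V →₀ ℤ) →ₗ[ℤ] _) := by
    refine Finsupp.lhom_ext' fun σ => LinearMap.ext_ring ?_
    simpa using bd_eps_single x σ
  simpa using LinearMap.congr_fun this z

theorem bd_bd (z : Finset V →₀ ℤ) : bd (bd z) = 0 := by
  have h : ∀ σ : Finset V, bd (bd (single σ (1 : ℤ))) = 0 := by
    intro σ
    induction σ using Finset.induction_on with
    | empty => simp [bd_single]
    | insert x τ hx ih =>
      have e : single (insert x τ) (1 : ℤ) = sgn τ x • eps x (single τ 1) := by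
        rw [eps_single, if_neg hx]; simp [sgn_sq]
      have h1 := bd_eps x (single τ (1 : ℤ))
      have h2 := bd_eps x (bd (single τ (1 : ℤ)))
      rw [ih, map_zero, add_zero] at h2
      rw [e, map_smul, map_smul, eq_sub_of_add_eq h1, map_sub, h2, sub_self, smul_zero]
  have : (bd ∘ₗ bd : (Finset V →₀ ℤ) →ₗ[ℤ] _) = 0 := by
    refine Finsupp.lhom_ext' fun σ => LinearMap.ext_ring ?_
    simpa using h σ
  simpa using LinearMap.congr_fun this z

theorem mem_support_bd {z : Finset V →₀ ℤ} {τ : Finset V} (h : τ ∈ (bd z).support) :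
    ∃ σ ∈ z.support, ∃ v ∈ σ, τ = σ.erase v := by
  rw [← Finsupp.sum_single z, Finsupp.sum, map_sum] at h
  obtain ⟨σ, hσ, h⟩ := Finset.mem_biUnion.1 (Finsupp.support_finset_sum h)
  rw [bd_single'] at h
  obtain ⟨v, hv, h⟩ := Finset.mem_biUnion.1 (Finsupp.support_finset_sum h)
  exact ⟨σ, hσ, v, hv, Finset.mem_singleton.1 (support_single_subset h)⟩

theorem mem_support_eps {x : V} {z : Finset V →₀ ℤ} {τ : Finset V} (h : τ ∈ (eps x z).support) :
    ∃ σ ∈ z.support, x ∉ σ ∧ τ = insert x σ := by
  rw [← Finsupp.sum_single z, Finsupp.sum, map_sum] at h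
  obtain ⟨σ, hσ, h⟩ := Finset.mem_biUnion.1 (Finsupp.support_finset_sum h)
  rw [eps_single] at h
  split_ifs at h with hx
  · simp at h
  · exact ⟨σ, hσ, hx, Finset.mem_singleton.1 (support_single_subset h)⟩

theorem eps_eq_zero {x : V} {z : Finset V →₀ ℤ} (h : ∀ σ ∈ z.support, x ∈ σ) : eps x z = 0 := by
  rw [← support_eq_empty, eq_empty_iff_forall_notMem]
  intro τ hτ
  obtain ⟨σ, hσ, hx, -⟩ := mem_support_eps hτ
  exact hx (h σ hσ)

theorem eps_apply_insert {x : V} {σ : Finset V} (hx : x ∉ σ) (z : Finset V →₀ ℤ) :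
    eps x z (insert x σ) = z σ * sgn σ x := by
  induction z using Finsupp.induction_linear with
  | zero => simp
  | add f g hf hg => simp [hf, hg, add_mul]
  | single τ c =>
    rw [eps_single]
    by_cases h : τ = σ
    · subst h; simp [hx]
    · rw [single_eq_of_ne (Ne.symm h), zero_mul]
      split_ifs with hτ
      · rfl
      · apply single_eq_of_ne
        intro e
        apply h
        rw [← erase_insert hτ, ← e, erase_insert hx]

/-- chains of the flag complex of `adj` on `A` with `k` vertices -/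
def IsCh (adj : V → V → Prop) (A : Set V) (k : ℕ) (z : Finset V →₀ ℤ) : Prop :=
  ∀ σ ∈ z.support, σ.card = k ∧ (∀ x ∈ σ, x ∈ A) ∧ ∀ x ∈ σ, ∀ y ∈ σ, adj x y

variable {adj : V → V → Prop}

theorem IsCh.mono {A B : Set V} {k : ℕ} {z : Finset V →₀ ℤ} (h : IsCh adj A k z) (hAB : A ⊆ B) :
    IsCh adj B k z := fun σ hσ => ⟨(h σ hσ).1, fun x hx => hAB ((h σ hσ).2.1 x hx), (h σ hσ).2.2⟩

theorem IsCh.add {A : Set V} {k : ℕ} {z w : Finset V →₀ ℤ} (h : IsCh adj A k z)
    (h' : IsCh adj A k w) : IsCh adj A k (z + w) := fun σ hσ =>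
  (mem_union.1 (support_add hσ)).elim (h σ) (h' σ)

theorem IsCh.sub {A : Set V} {k : ℕ} {z w : Finset V →₀ ℤ} (h : IsCh adj A k z)
    (h' : IsCh adj A k w) : IsCh adj A k (z - w) := fun σ hσ =>
  (mem_union.1 (support_sub hσ)).elim (h σ) (h' σ)

theorem IsCh.eps (hs : ∀ x y, adj x y → adj y x) (hr : ∀ x, adj x x) {A B : Set V} {k : ℕ}
    {z : Finset V →₀ ℤ} (h : IsCh adj A k z) {x : V} (hx : x ∈ B) (hAB : A ⊆ B)
    (hA : ∀ a ∈ A, adj x a) : IsCh adj B (k + 1) (eps x z) := by
  intro τ hτ
  obtain ⟨σ, hσ, hxσ, rfl⟩ := mem_support_eps hτ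
  obtain ⟨h1, h2, h3⟩ := h σ hσ
  refine ⟨by rw [card_insert_of_notMem hxσ, h1], ?_, ?_⟩
  · intro y hy
    rcases mem_insert.1 hy with rfl | hy
    exacts [hx, hAB (h2 y hy)]
  · intro y hy u hu
    rcases mem_insert.1 hy with e | hy' <;> rcases mem_insert.1 hu with e' | hu'
    · rw [e, e']; exact hr _
    · rw [e]; exact hA u (h2 u hu')
    · rw [e']; exact hs _ _ (hA y (h2 y hy'))
    · exact h3 y hy' u hu'

/-- If any `2k` vertices have a common neighbour in `A`, cycles with at most `k` vertices bound. -/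
theorem fill (hs : ∀ x y, adj x y → adj y x) (hr : ∀ x, adj x x) (k : ℕ) :
    ∀ (A : Set V), A.Finite → (∀ S : Finset V, (∀ s ∈ S, s ∈ A) → S.card ≤ 2 * k →
      ∃ a ∈ A, ∀ s ∈ S, adj a s) →
      ∀ z, IsCh adj A k z → bd z = 0 → ∃ c, IsCh adj A (k + 1) c ∧ bd c = z := by
  classical
  induction k with
  | zero =>
    intro A _ hD z hz h0
    obtain ⟨w, hw, -⟩ := hD ∅ (by simp) (by simp)
    have hz' : IsCh adj ∅ 0 z := fun σ hσ => by
      have := card_eq_zero.1 (hz σ hσ).1
      subst this
      simp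
    refine ⟨eps w z, hz'.eps hs hr hw (by simp) (by simp), ?_⟩
    simpa [h0] using bd_eps w z
  | succ k ih =>
    intro A hA hD
    obtain ⟨w, hw, -⟩ := hD ∅ (by simp) (by simp)
    have key : ∀ F : Finset V, (∀ x ∈ F, x ∈ A ∧ ¬ adj w x) → ∀ z,
        IsCh adj ({a ∈ A | adj w a} ∪ F) (k + 1) z → bd z = 0 →
        ∃ c, IsCh adj A (k + 1 + 1) c ∧ bd c = z := by
      intro F
      induction F using Finset.induction_on with
      | empty =>
        intro _ z hz h0
        refine ⟨eps w z, hz.eps hs hr hw (by simp) (by simp), ?_⟩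
        simpa [h0] using bd_eps w z
      | insert x F hxF ihF =>
        intro hF z hz h0
        have hxA := hF x (mem_insert_self _ _)
        have hFA : ∀ y ∈ F, y ∈ A ∧ ¬ adj w y := fun y hy => hF y (mem_insert_of_mem hy)
        set B : Set V := {a ∈ A | adj w a} ∪ F with hB
        have hBA : B ⊆ A := by
          rintro y (hy | hy)
          exacts [hy.1, (hFA y hy).1]
        set z0 := z.filter (x ∉ ·) with hz0
        have hz0s : ∀ σ ∈ z0.support, σ ∈ z.support ∧ x ∉ σ := fun σ hσ => by
          simpa [hz0, support_filter] using hσ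
        have hz1s : ∀ σ ∈ (z - z0).support, σ ∈ z.support ∧ x ∈ σ := fun σ hσ => by
          by_cases hx : x ∈ σ
          · simpa [hz0, filter_apply, hx] using hσ
          · simp [hz0, filter_apply, hx] at hσ
        have hz0B : IsCh adj B (k + 1) z0 := fun σ hσ => by
          obtain ⟨h1, h2⟩ := hz0s σ hσ
          obtain ⟨h3, h4, h5⟩ := hz σ h1
          refine ⟨h3, fun y hy => ?_, h5⟩
          rcases h4 y hy with h | h
          · exact Or.inl h
          · rcases mem_insert.1 (by simpa using h) with rfl | h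
            exacts [absurd hy h2, Or.inr h]
        have hneg : bd (z - z0) = - bd z0 := by simp [h0]
        have hdec : z = z0 - eps x (bd z0) := by
          have := bd_eps x (z - z0)
          rw [eps_eq_zero fun σ hσ => (hz1s σ hσ).2, map_zero, zero_add, hneg, map_neg] at this
          rw [sub_eq_add_neg, this]; abel
        set L : Set V := {a ∈ B | adj x a} with hL
        have hy : IsCh adj L k (bd z0) := by
          intro τ hτ
          have hxτ : x ∉ τ := by
            obtain ⟨σ, hσ, v, -, rfl⟩ := mem_support_bd hτ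
            exact fun h => (hz0s σ hσ).2 (mem_of_mem_erase h)
          have hτB : ∀ y ∈ τ, y ∈ B := by
            obtain ⟨σ, hσ, v, -, rfl⟩ := mem_support_bd hτ
            exact fun y h => (hz0B σ hσ).2.1 y (mem_of_mem_erase h)
          have hτ' : τ ∈ (bd (z - z0)).support := by rwa [hneg, support_neg]
          obtain ⟨σ, hσ, v, hv, rfl⟩ := mem_support_bd hτ'
          obtain ⟨h1, h2⟩ := hz1s σ hσ
          obtain ⟨h3, -, h5⟩ := hz σ h1
          refine ⟨by rw [card_erase_of_mem hv, h3]; rfl, fun y hy =>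
            ⟨hτB y hy, h5 x h2 y (mem_of_mem_erase hy)⟩,
            fun y hy u hu => h5 y (mem_of_mem_erase hy) u (mem_of_mem_erase hu)⟩
        obtain ⟨c, hc, hcy⟩ := ih L (hA.subset fun a ha => hBA ha.1) (by
          intro S hS hcard
          obtain ⟨a, ha, haS⟩ := hD (insert x (insert w S)) (by
            intro s hs'
            rcases mem_insert.1 hs' with rfl | hs'
            · exact hxA.1
            rcases mem_insert.1 hs' with rfl | hs'
            exacts [hw, hBA (hS s hs').1]) (by
            have h1 := card_insert_le x (insert w S)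
            have h2 := card_insert_le w S
            omega)
          exact ⟨a, ⟨Or.inl ⟨ha, hs _ _ (haS w (by simp))⟩, hs _ _ (haS x (by simp))⟩,
            fun s hs' => haS s (by simp [hs'])⟩) (bd z0) hy (bd_bd z0)
        obtain ⟨e, he, hez⟩ := ihF hFA (z0 - c) (hz0B.sub (hc.mono fun a ha => ha.1))
          (by simp [hcy])
        refine ⟨e + eps x c, he.add (hc.eps hs hr hxA.1 (fun a ha => hBA ha.1)
          fun a ha => ha.2), ?_⟩
        have := bd_eps x c
        rw [map_add, hez, eq_sub_of_add_eq this, hcy]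
        rw [hdec]; abel
    intro z hz h0
    refine key (hA.toFinset.filter fun x => ¬ adj w x) (by simp) z (hz.mono fun a ha => ?_) h0
    by_cases h : adj w a
    · exact Or.inl ⟨ha, h⟩
    · exact Or.inr (by simp [ha, h])

/-- the cross-polytopal cycle -/
noncomputable def cross : List (V × V) → (Finset V →₀ ℤ)
  | [] => single ∅ 1
  | p :: L => eps p.1 (cross L) - eps p.2 (cross L)

theorem bd_cross (p : V × V) (L : List (V × V)) : bd (cross (p :: L)) = 0 := by
  induction L generalizing p with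
  | nil =>
    have h1 := bd_eps p.1 (cross ([] : List (V × V)))
    have h2 := bd_eps p.2 (cross ([] : List (V × V)))
    have h0 : bd (cross ([] : List (V × V))) = 0 := by simp [cross, bd_single]
    rw [h0, map_zero, add_zero] at h1 h2
    rw [cross, map_sub, h1, h2, sub_self]
  | cons q L ih =>
    have h1 := bd_eps p.1 (cross (q :: L))
    have h2 := bd_eps p.2 (cross (q :: L))
    rw [ih, map_zero, add_zero] at h1 h2
    rw [cross, map_sub, h1, h2, sub_self]

theorem isCh_cross (hs : ∀ x y, adj x y → adj y x) (hr : ∀ x, adj x x) (L : List (V × V))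
    (hL : L.Pairwise fun p q => (adj p.1 q.1 ∧ adj p.1 q.2) ∧ adj p.2 q.1 ∧ adj p.2 q.2) :
    IsCh adj {a | ∃ q ∈ L, a = q.1 ∨ a = q.2} L.length (cross L) := by
  induction L with
  | nil =>
    intro σ hσ
    have := Finset.mem_singleton.1 (support_single_subset hσ)
    subst this
    simp
  | cons p L ih =>
    rw [List.pairwise_cons] at hL
    have hsub : {a | ∃ q ∈ L, a = q.1 ∨ a = q.2} ⊆ {a | ∃ q ∈ p :: L, a = q.1 ∨ a = q.2} := by
      rintro a ⟨q, hq, h⟩
      exact ⟨q, List.mem_cons_of_mem _ hq, h⟩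
    have m1 : p.1 ∈ {a | ∃ q ∈ p :: L, a = q.1 ∨ a = q.2} := ⟨p, List.mem_cons_self, Or.inl rfl⟩
    have m2 : p.2 ∈ {a | ∃ q ∈ p :: L, a = q.1 ∨ a = q.2} := ⟨p, List.mem_cons_self, Or.inr rfl⟩
    refine ((ih hL.2).eps hs hr m1 hsub ?_).sub ((ih hL.2).eps hs hr m2 hsub ?_)
    · rintro a ⟨q, hq, rfl | rfl⟩
      exacts [(hL.1 q hq).1.1, (hL.1 q hq).1.2]
    · rintro a ⟨q, hq, rfl | rfl⟩
      exacts [(hL.1 q hq).2.1, (hL.1 q hq).2.2]

theorem cross_apply_ne_zero (L : List (V × V)) (h1 : (L.map Prod.fst).Nodup)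
    (h2 : ∀ p ∈ L, p.2 ∉ L.map Prod.fst) : cross L (L.map Prod.fst).toFinset ≠ 0 := by
  induction L with
  | nil => simp [cross]
  | cons p L ih =>
    rw [List.map_cons, List.nodup_cons] at h1
    have hp : p.1 ∉ (L.map Prod.fst).toFinset := by simpa using h1.1
    have hz : eps p.2 (cross L) (insert p.1 (L.map Prod.fst).toFinset) = 0 := by
      rw [← Finsupp.notMem_support_iff]
      intro h
      obtain ⟨σ, -, -, e⟩ := mem_support_eps h
      apply h2 p List.mem_cons_self
      have : p.2 ∈ insert p.1 (L.map Prod.fst).toFinset := e ▸ mem_insert_self _ _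
      simpa using this
    rw [cross, List.map_cons, List.toFinset_cons, Finsupp.sub_apply, hz, sub_zero,
      eps_apply_insert hp]
    refine mul_ne_zero (ih h1.2 fun q hq h => ?_) (sgn_ne_zero _ _)
    exact h2 q (List.mem_cons_of_mem _ hq) (by simp only [List.map_cons]; exact List.mem_cons_of_mem _ h)

theorem bd_apply_eq_zero {A : Set V} {k : ℕ} {c : Finset V →₀ ℤ} (hc : IsCh adj A k c)
    {σ : Finset V} (hσ : ∀ w, (∀ u ∈ σ, adj w u) → w ∈ σ) : bd c σ = 0 := by
  rw [← Finsupp.notMem_support_iff]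
  intro h
  obtain ⟨τ, hτ, v, hv, rfl⟩ := mem_support_bd h
  have := hσ v fun u hu => (hc τ hτ).2.2 v hv u (mem_of_mem_erase hu)
  simp at this

end Pool.Agent.Lib.MP_cf6741_gt
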