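import Mathlib

/-!
Reduced integral simplicial homology of Vietoris-Rips complexes of subsets of `ℤⁿ` with the
`ℓ¹` metric. Vertices are ordered lexicographically, which orients every simplex. A simplex is a
finite set of vertices; the empty simplex sits in degree `-1` and gives the augmentation.
-/

namespace Pool.Agent.Lib.MP_cf6741_gt

/-- The simplicial boundary `∂[v₀ < ⋯ < vₖ] = ∑ⱼ (-1)ʲ [v₀, …, vⱼ omitted, …, vₖ]`; in particular
`∂[v] = [∅]` is the augmentation. -/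
noncomputable def bd {V : Type} [LinearOrder V] : (Finset V →₀ ℤ) →ₗ[ℤ] (Finset V →₀ ℤ) :=
  Finsupp.linearCombination ℤ fun σ =>
    ∑ v ∈ σ, Finsupp.single (σ.erase v) ((-1) ^ (σ.filter (· < v)).card)

variable {n : ℕ}

/-- Integral chains of `VR(A; r)` on simplices with `k` vertices (dimension `k - 1`). -/
def chains (A : Set (Lex (Fin n → ℤ))) (r : ℝ) (k : ℕ) :
    Submodule ℤ (Finset (Lex (Fin n → ℤ)) →₀ ℤ) :=
  Finsupp.supported ℤ ℤ {σ | σ.card = k ∧ (∀ x ∈ σ, x ∈ A) ∧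
    ∀ x ∈ σ, ∀ y ∈ σ, ((∑ j, |ofLex x j - ofLex y j| : ℤ) : ℝ) ≤ r}

/-- Reduced `i`-cycles of `VR(A; r)`. -/
noncomputable def cycles (A : Set (Lex (Fin n → ℤ))) (r : ℝ) (i : ℕ) :
    Submodule ℤ (Finset (Lex (Fin n → ℤ)) →₀ ℤ) :=
  chains A r (i + 1) ⊓ LinearMap.ker bd

/-- `i`-boundaries of `VR(A; r)`. -/
noncomputable def boundaries (A : Set (Lex (Fin n → ℤ))) (r : ℝ) (i : ℕ) :
    Submodule ℤ (Finset (Lex (Fin n → ℤ)) →₀ ℤ) :=
  (chains A r (i + 2)).map bd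

/-- The reduced homology group `H̃ᵢ(VR(A; r); ℤ)`, cycles modulo boundaries. -/
abbrev redH (A : Set (Lex (Fin n → ℤ))) (r : ℝ) (i : ℕ) : Type :=
  cycles A r i ⧸ (boundaries A r i).submoduleOf (cycles A r i)

end Pool.Agent.Lib.MP_cf6741_gt
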