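import Pool.Agent.Lib.MP_cf6741_gt.Chain

namespace Pool.Agent.Lib.MP_cf6741_gt

open Finset

/-- the maximal simplex -/
def SL : List (List ℕ) :=
  [[0, 0, 0, 0, 0, 0, 0, 0, 0, 0],
   [0, 1, 0, 0, 0, 0, 0, 0, 1, 1],
   [0, 1, 0, 0, 0, 0, 1, 1, 0, 0],
   [0, 0, 0, 0, 0, 0, 1, 1, 1, 1],
   [0, 1, 0, 0, 1, 1, 0, 0, 0, 0],
   [0, 0, 0, 0, 1, 1, 0, 0, 1, 1],
   [0, 0, 0, 0, 1, 1, 1, 1, 0, 0],
   [0, 1, 0, 0, 1, 1, 1, 1, 1, 1],
   [0, 1, 1, 1, 0, 0, 0, 0, 0, 0],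
   [0, 0, 1, 1, 0, 0, 0, 0, 1, 1],
   [0, 0, 1, 1, 0, 0, 1, 1, 0, 0],
   [0, 1, 1, 1, 0, 0, 1, 1, 1, 1],
   [0, 0, 1, 1, 1, 1, 0, 0, 0, 0],
   [0, 1, 1, 1, 1, 1, 0, 0, 1, 1],
   [0, 1, 1, 1, 1, 1, 1, 1, 0, 0],
   [0, 0, 1, 1, 1, 1, 1, 1, 1, 1],
   [3, 0, 1, 0, 1, 0, 1, 0, 1, 0],
   [3, 1, 1, 0, 1, 0, 1, 0, 0, 1],
   [3, 1, 1, 0, 1, 0, 0, 1, 1, 0],
   [3, 0, 1, 0, 1, 0, 0, 1, 0, 1],
   [3, 1, 1, 0, 0, 1, 1, 0, 1, 0],
   [3, 0, 1, 0, 0, 1, 1, 0, 0, 1],
   [3, 0, 1, 0, 0, 1, 0, 1, 1, 0],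
   [3, 1, 1, 0, 0, 1, 0, 1, 0, 1],
   [3, 1, 0, 1, 1, 0, 1, 0, 1, 0],
   [3, 0, 0, 1, 1, 0, 1, 0, 0, 1],
   [3, 0, 0, 1, 1, 0, 0, 1, 1, 0],
   [3, 1, 0, 1, 1, 0, 0, 1, 0, 1],
   [3, 0, 0, 1, 0, 1, 1, 0, 1, 0],
   [3, 1, 0, 1, 0, 1, 1, 0, 0, 1],
   [3, 1, 0, 1, 0, 1, 0, 1, 1, 0],
   [3, 0, 0, 1, 0, 1, 0, 1, 0, 1]]

/-- partner -/
def flipL : List ℕ → List ℕ
  | [] => []
  | a :: l => a :: l.map (1 - ·)

/-- distance of lists -/
def dN : List ℕ → List ℕ → ℕ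
  | a :: l, b :: m => (a - b) + (b - a) + dN l m
  | _, _ => 0

/-- vertex -/
def vec (l : List ℕ) : Lex (Fin 10 → ℤ) := toLex fun j => ((l.getD j 0 : ℕ) : ℤ)

/-- distance -/
def dZ (x y : Lex (Fin 10 → ℤ)) : ℤ := ∑ j, |ofLex x j - ofLex y j|

/-- adjacency -/
def adj8 (x y : Lex (Fin 10 → ℤ)) : Prop := ((∑ j, |ofLex x j - ofLex y j| : ℤ) : ℝ) ≤ 8

theorem adj8_iff (x y : Lex (Fin 10 → ℤ)) : adj8 x y ↔ dZ x y ≤ 8 := by
  unfold adj8 dZ
  exact_mod_cast Iff.rfl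

theorem adj8_symm (x y : Lex (Fin 10 → ℤ)) (h : adj8 x y) : adj8 y x := by
  rw [adj8_iff] at *
  simpa only [dZ, abs_sub_comm] using h

theorem adj8_refl (x : Lex (Fin 10 → ℤ)) : adj8 x x := by
  rw [adj8_iff]; simp [dZ]

theorem abs_cast (a b : ℕ) : |(a : ℤ) - b| = ((a - b) + (b - a) : ℕ) := by
  rcases le_total a b with h | h
  · rw [abs_sub_comm, abs_of_nonneg (by omega)]; omega
  · rw [abs_of_nonneg (by omega)]; omega

theorem dZ_vec {l m : List ℕ} (hl : l.length = 10) (hm : m.length = 10) :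
    dZ (vec l) (vec m) = dN l m := by
  match l, hl, m, hm with
  | [a0, a1, a2, a3, a4, a5, a6, a7, a8, a9], _, [b0, b1, b2, b3, b4, b5, b6, b7, b8, b9], _ =>
    simp only [dZ, vec, ofLex_toLex, Fin.sum_univ_succ, abs_cast, dN]
    simp

theorem vec_inj {l m : List ℕ} (hl : l.length = 10) (hm : m.length = 10) (h : vec l = vec m) :
    l = m := by
  apply List.ext_getElem (hl.trans hm.symm)
  intro i h1 h2
  have := congrFun (congrArg ofLex h) ⟨i, by omega⟩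
  simpa [vec, List.getD_eq_getElem?_getD, h1, h2] using this

theorem len_SL : ∀ l ∈ SL, l.length = 10 ∧ (flipL l).length = 10 := by decide +kernel

theorem box_SL : ∀ l ∈ SL, ∀ j : Fin 10, l.getD j 0 ≤ if j = 0 then 3 else 1 := by decide +kernel

theorem pair_SL : SL.Pairwise fun l m => (dN l m ≤ 8 ∧ dN l (flipL m) ≤ 8) ∧
    dN (flipL l) m ≤ 8 ∧ dN (flipL l) (flipL m) ≤ 8 := by decide +kernel

theorem nodup_SL : SL.Nodup := by decide +kernel

theorem flip_SL : ∀ l ∈ SL, flipL l ∉ SL := by decide +kernel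

/-- maximality test -/
def chk (c : List ℕ) : Bool :=
  SL.any (fun u => Nat.ble 9 (dN c u)) || (SL.contains c && SL.any fun u => Nat.ble 8 (dN c u))

theorem chk_all : ∀ (l : Fin 4) (b1 b2 b3 b4 b5 b6 b7 b8 b9 : Fin 2),
    chk [l.val, b1.val, b2.val, b3.val, b4.val, b5.val, b6.val, b7.val, b8.val, b9.val] = true := by
  decide +kernel

theorem chk_box (c : Fin 10 → ℕ) (hc : ∀ j, c j ≤ if j = 0 then 3 else 1) :
    chk (List.ofFn c) = true := by
  have h0 := hc 0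
  have h1 := hc 1
  have h2 := hc 2
  have h3 := hc 3
  have h4 := hc 4
  have h5 := hc 5
  have h6 := hc 6
  have h7 := hc 7
  have h8 := hc 8
  have h9 := hc 9
  simp only [Fin.reduceEq, if_true, if_false] at h0 h1 h2 h3 h4 h5 h6 h7 h8 h9
  exact chk_all ⟨c 0, by omega⟩ ⟨c 1, by omega⟩ ⟨c 2, by omega⟩ ⟨c 3, by omega⟩ ⟨c 4, by omega⟩
    ⟨c 5, by omega⟩ ⟨c 6, by omega⟩ ⟨c 7, by omega⟩ ⟨c 8, by omega⟩ ⟨c 9, by omega⟩

theorem maximal_SL (w : Lex (Fin 10 → ℤ)) (hw : ∀ u ∈ SL, adj8 w (vec u)) :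
    ∃ u ∈ SL, w = vec u := by
  let c : Fin 10 → ℕ := fun j => (min (ofLex w j) (if j = 0 then 3 else 1)).toNat
  have hc : ∀ j, c j ≤ if j = 0 then 3 else 1 := fun j => by
    simp only [c]; split_ifs <;> omega
  have hlen : (List.ofFn c).length = 10 := by simp
  have hv : ∀ j, ofLex (vec (List.ofFn c)) j = (c j : ℤ) := fun j => by
    simp [vec, List.getD_eq_getElem?_getD, -List.ofFn_succ]
  have hsplit : ∀ u ∈ SL, dZ w (vec u) = dZ w (vec (List.ofFn c)) + dN (List.ofFn c) u := by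
    intro u hu
    rw [← dZ_vec hlen (len_SL u hu).1]
    simp only [dZ, ← sum_add_distrib]
    refine sum_congr rfl fun j _ => ?_
    have hb := box_SL u hu j
    rw [hv]
    simp only [vec, ofLex_toLex, c]
    generalize u.getD j 0 = a at hb
    generalize ofLex w j = x
    split_ifs at hb ⊢ <;> simp only [abs_eq_max_neg] <;> omega
  have hnn : 0 ≤ dZ w (vec (List.ofFn c)) := sum_nonneg fun _ _ => abs_nonneg _
  have h := chk_box c hc
  simp only [chk, Bool.or_eq_true, List.any_eq_true, Nat.ble_eq, Bool.and_eq_true,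
    List.contains_iff_mem] at h
  rcases h with ⟨u, hu, h⟩ | ⟨hm, u, hu, h⟩
  · have := (adj8_iff _ _).1 (hw u hu)
    rw [hsplit u hu] at this
    omega
  · refine ⟨_, hm, ?_⟩
    have := (adj8_iff _ _).1 (hw u hu)
    rw [hsplit u hu] at this
    have h0 : dZ w (vec (List.ofFn c)) = 0 := by omega
    rw [dZ, sum_eq_zero_iff_of_nonneg fun _ _ => abs_nonneg _] at h0
    apply ofLex.injective
    ext j
    simpa [sub_eq_zero] using h0 j (mem_univ j)

/-- the pairs of the cross-polytope -/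
def PL : List (Lex (Fin 10 → ℤ) × Lex (Fin 10 → ℤ)) := SL.map fun l => (vec l, vec (flipL l))

theorem PL_fst : PL.map Prod.fst = SL.map vec := by simp [PL, Function.comp_def]

theorem nontrivial_of (z : Finset (Lex (Fin 10 → ℤ)) →₀ ℤ) (hch : IsCh adj8 Set.univ 32 z)
    (hbd : bd z = 0) (σ : Finset (Lex (Fin 10 → ℤ))) (h1 : z σ ≠ 0)
    (hmax : ∀ w, (∀ u ∈ σ, adj8 w u) → w ∈ σ) : Nontrivial (redH (n := 10) Set.univ 8 31) := by
  have hcyc : z ∈ cycles (n := 10) Set.univ 8 31 := ⟨hch, hbd⟩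
  refine ⟨⟨Submodule.Quotient.mk ⟨_, hcyc⟩, 0, ?_⟩⟩
  rw [Ne, Submodule.Quotient.mk_eq_zero]
  intro hmem
  have hmem' : z ∈ (chains (n := 10) Set.univ 8 33).map bd := hmem
  obtain ⟨c, hc, e'⟩ := Submodule.mem_map.1 hmem'
  apply h1
  rw [← e']
  exact bd_apply_eq_zero (adj := adj8) (A := Set.univ) (k := 33) hc hmax

theorem nontrivial_lattice : Nontrivial (redH (n := 10) Set.univ 8 31) := by
  have hch : IsCh adj8 Set.univ 32 (cross PL) := by
    have := isCh_cross adj8_symm adj8_refl PL (by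
      rw [PL, List.pairwise_map]
      refine (List.Pairwise.and_mem.1 pair_SL).imp ?_
      rintro l m ⟨hl, hm, h⟩
      obtain ⟨l1, l2⟩ := len_SL l hl
      obtain ⟨m1, m2⟩ := len_SL m hm
      simp only [adj8_iff, dZ_vec l1 m1, dZ_vec l1 m2, dZ_vec l2 m1, dZ_vec l2 m2]
      omega)
    exact this.mono (Set.subset_univ _)
  have hbd : bd (cross PL) = 0 := by
    obtain ⟨p, L, e⟩ := List.exists_cons_of_ne_nil (l := PL) (by simp [PL, SL])
    rw [e]
    exact bd_cross p L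
  have h1 := cross_apply_ne_zero PL ?_ ?_
  refine nontrivial_of _ hch hbd _ h1 ?_
  rotate_left
  · rw [PL_fst]
    exact nodup_SL.map_on fun l hl m hm => vec_inj (len_SL l hl).1 (len_SL m hm).1
  · rw [PL_fst]
    intro p hp h
    obtain ⟨l, hl, rfl⟩ := List.mem_map.1 hp
    obtain ⟨m, hm, e⟩ := List.mem_map.1 h
    have := vec_inj (len_SL m hm).1 (len_SL l hl).2 e
    exact flip_SL l hl (this ▸ hm)
  · intro w hw
    rw [PL_fst] at hw ⊢
    obtain ⟨u, hu, rfl⟩ := maximal_SL w fun u hu => hw _ (by simpa using ⟨u, hu, rfl⟩)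
    simpa using ⟨u, hu, rfl⟩

/-- the cube -/
def cubeF : Finset (Lex (Fin 10 → ℤ)) :=
  (Fintype.piFinset fun _ : Fin 10 => ({0, 1} : Finset ℤ)).map toLex.toEmbedding

theorem mem_cubeF (x : Lex (Fin 10 → ℤ)) :
    x ∈ cubeF ↔ ∀ j, ofLex x j = 0 ∨ ofLex x j = 1 := by
  simp [cubeF, Fintype.mem_piFinset]

theorem card_cubeF : cubeF.card = 1024 := by
  simp [cubeF, Fintype.card_piFinset]

theorem card_far (s : Lex (Fin 10 → ℤ)) (hs : s ∈ cubeF) [DecidablePred fun a => ¬ adj8 a s] :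
    (cubeF.filter fun a => ¬ adj8 a s).card ≤ 11 := by
  classical
  let f : Option (Fin 10) → Lex (Fin 10 → ℤ) := fun o =>
    toLex fun j => if o = some j then ofLex s j else 1 - ofLex s j
  have : (cubeF.filter fun a => ¬ adj8 a s) ⊆ univ.image f := by
    intro a ha
    rw [mem_filter, mem_cubeF, adj8_iff] at ha
    rw [mem_cubeF] at hs
    obtain ⟨ha, hd⟩ := ha
    have hle : ∀ j, |ofLex a j - ofLex s j| ≤ 1 := fun j => by
      rcases ha j with h | h <;> rcases hs j with h' | h' <;> simp [h, h']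
    have hne : ∀ j, ofLex a j ≠ ofLex s j → ofLex a j = 1 - ofLex s j := fun j => by
      rcases ha j with h | h <;> rcases hs j with h' | h' <;> simp [h, h']
    rw [mem_image]
    by_cases hex : ∃ i, ofLex a i = ofLex s i
    · obtain ⟨i, hi⟩ := hex
      refine ⟨some i, mem_univ _, ofLex.injective ?_⟩
      ext j
      simp only [f, ofLex_toLex, Option.some.injEq]
      split_ifs with h
      · rw [← h, hi]
      · refine (hne j fun hj => hd ?_).symm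
        have hsub : ({i, j} : Finset (Fin 10)) ⊆ univ := subset_univ _
        rw [dZ, ← sum_sdiff hsub, sum_pair h, hi, hj]
        have := card_nsmul_le_sum (univ \ {i, j}) (fun k => -|ofLex a k - ofLex s k|) (-1)
          fun k _ => neg_le_neg (hle k)
        rw [card_sdiff_of_subset hsub, card_pair h, sum_neg_distrib] at this
        simp at this ⊢
        omega
    · refine ⟨none, mem_univ _, ofLex.injective ?_⟩
      ext j
      simp only [f, ofLex_toLex, reduceCtorEq, if_false]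
      exact (hne j fun hj => hex ⟨j, hj⟩).symm
  refine (card_le_card this).trans (card_image_le.trans ?_)
  simp

theorem subsingleton_cube :
    Subsingleton (redH (n := 10) {x | ∀ j, ofLex x j = 0 ∨ ofLex x j = 1} 8 31) := by
  classical
  have hA : {x : Lex (Fin 10 → ℤ) | ∀ j, ofLex x j = 0 ∨ ofLex x j = 1} = ↑cubeF := by
    ext x; simp [mem_cubeF]
  rw [Submodule.Quotient.subsingleton_iff, eq_top_iff]
  rintro ⟨z, hz, h0⟩ -
  obtain ⟨c, hc, e⟩ := fill adj8_symm adj8_refl 32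
    {x : Lex (Fin 10 → ℤ) | ∀ j, ofLex x j = 0 ∨ ofLex x j = 1} (hA ▸ cubeF.finite_toSet) (by
      intro S hS hcard
      have hlt : (S.biUnion fun s => cubeF.filter fun a => ¬ adj8 a s).card < cubeF.card := by
        have := card_biUnion_le_card_mul S (fun s => cubeF.filter fun a => ¬ adj8 a s) 11
          fun s hs => card_far s ((mem_cubeF s).2 (hS s hs))
        rw [card_cubeF]
        omega
      obtain ⟨a, ha, hna⟩ := exists_mem_notMem_of_card_lt_card hlt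
      refine ⟨a, (mem_cubeF a).1 ha, fun s hs => ?_⟩
      by_contra h
      exact hna (mem_biUnion.2 ⟨s, hs, mem_filter.2 ⟨ha, h⟩⟩)) z hz h0
  exact ⟨c, hc, e⟩

end Pool.Agent.Lib.MP_cf6741_gt
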